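import Pool.Agent.Lib.MP_af3a4a_an.P1.CHK.DATA.N56x57.K0
import Pool.Agent.Lib.MP_af3a4a_an.P1.CHK.DATA.N56x57.K1
import Pool.Agent.Lib.MP_af3a4a_an.P1.CHK.DATA.N56x57.K2
import Pool.Agent.Lib.MP_af3a4a_an.P1.CHK.DATA.N56x57.K3
import Pool.Agent.Lib.MP_af3a4a_an.P1.CHK.DATA.N56x57.K4

/-! glue for 56 <= N <= 57 (generated) -/

set_option autoImplicit false
set_option maxRecDepth 100000

namespace Pool.Agent.Lib.MP_af3a4a_an.P1.CHK.DATA.N56x57

open BOX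

theorem g0 : ChunkP 56 57 0 512 64 96 0 2484 := ChunkP.g k1 k2
theorem g1 : ChunkP 56 57 0 512 64 101 0 2484 := ChunkP.g g0 k3
theorem g2 : ChunkP 56 57 0 512 0 101 0 2484 := ChunkP.g k0 g1
theorem g3 : ChunkP 56 57 768 1024 80 88 1248 2484 := ChunkP.r k14 k15
theorem g4 : ChunkP 56 57 768 1024 80 88 1200 2484 := ChunkP.R k13 g3
theorem g5 : ChunkP 56 57 768 1024 80 88 1104 2484 := ChunkP.R k12 g4
theorem g6 : ChunkP 56 57 768 1024 80 88 912 2484 := ChunkP.R k11 g5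
theorem g7 : ChunkP 56 57 768 1024 80 88 576 2484 := ChunkP.R k10 g6
theorem g8 : ChunkP 56 57 768 1024 80 96 576 2484 := ChunkP.g g7 k16
theorem g9 : ChunkP 56 57 768 1024 80 96 480 2484 := ChunkP.R k9 g8
theorem g10 : ChunkP 56 57 512 1024 80 96 480 2484 := ChunkP.r k8 g9
theorem g11 : ChunkP 56 57 512 1024 80 96 432 2484 := ChunkP.R k7 g10
theorem g12 : ChunkP 56 57 512 1024 80 96 0 2484 := ChunkP.R k6 g11
theorem g13 : ChunkP 56 57 512 1024 64 96 0 2484 := ChunkP.g k5 g12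
theorem g14 : ChunkP 56 57 512 1024 64 101 0 2484 := ChunkP.g g13 k17
theorem g15 : ChunkP 56 57 512 1024 0 101 0 2484 := ChunkP.g k4 g14
theorem g16 : ChunkP 56 57 0 1024 0 101 0 2484 := ChunkP.r g2 g15
theorem g17 : ChunkP 56 57 1024 1536 64 80 480 2484 := ChunkP.r k21 k22
theorem g18 : ChunkP 56 57 1024 1536 64 80 432 2484 := ChunkP.R k20 g17
theorem g19 : ChunkP 56 57 1024 1536 64 80 0 2484 := ChunkP.R k19 g18
theorem g20 : ChunkP 56 57 1024 1280 80 88 1248 2484 := ChunkP.r k30 k31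
theorem g21 : ChunkP 56 57 1024 1280 80 88 1200 2484 := ChunkP.R k29 g20
theorem g22 : ChunkP 56 57 1024 1280 80 88 1104 2484 := ChunkP.R k28 g21
theorem g23 : ChunkP 56 57 1024 1280 80 88 960 2484 := ChunkP.R k27 g22
theorem g24 : ChunkP 56 57 1024 1280 80 88 576 2484 := ChunkP.R k26 g23
theorem g25 : ChunkP 56 57 1024 1280 80 96 576 2484 := ChunkP.g g24 k32
theorem g26 : ChunkP 56 57 1024 1280 80 96 480 2484 := ChunkP.R k25 g25
theorem g27 : ChunkP 56 57 1024 1536 80 96 480 2484 := ChunkP.r g26 k33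
theorem g28 : ChunkP 56 57 1024 1536 80 96 432 2484 := ChunkP.R k24 g27
theorem g29 : ChunkP 56 57 1024 1536 80 96 0 2484 := ChunkP.R k23 g28
theorem g30 : ChunkP 56 57 1024 1536 64 96 0 2484 := ChunkP.g g19 g29
theorem g31 : ChunkP 56 57 1024 1536 64 101 0 2484 := ChunkP.g g30 k34
theorem g32 : ChunkP 56 57 1024 1536 0 101 0 2484 := ChunkP.g k18 g31
theorem g33 : ChunkP 56 57 1536 2048 64 96 0 2484 := ChunkP.g k36 k37
theorem g34 : ChunkP 56 57 1536 2048 64 101 0 2484 := ChunkP.g g33 k38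
theorem g35 : ChunkP 56 57 1536 2048 0 101 0 2484 := ChunkP.g k35 g34
theorem g36 : ChunkP 56 57 1024 2048 0 101 0 2484 := ChunkP.r g32 g35
theorem g37 : ChunkP 56 57 0 2048 0 101 0 2484 := ChunkP.r g16 g36
theorem g38 : ChunkP 56 57 2048 2560 0 101 0 2484 := ChunkP.g k39 k40
theorem g39 : ChunkP 56 57 2048 3072 0 101 0 2484 := ChunkP.r g38 k41
theorem g40 : ChunkP 56 57 2048 4096 0 101 0 2484 := ChunkP.r g39 k42
theorem g41 : ChunkP 56 57 0 4096 0 101 0 2484 := ChunkP.r g37 g40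

/-- the whole box -/
theorem allBox : ChunkP 56 57 0 4096 0 101 0 2484 := g41

theorem full {N : ℕ} (hNa : 56 ≤ N) (hNb : N ≤ 57) {z w : Fin N → ℂ} {R : ℝ} {σ : Fin N → ℂ}
    (hC : Pool.Agent.Lib.MP_af3a4a_an.P1.H80.Cfg2 N z w R σ) : ((2484 : ℕ) : ℝ) / 1024 < R := ChunkP.full allBox hNa hNb hC

end Pool.Agent.Lib.MP_af3a4a_an.P1.CHK.DATA.N56x57
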